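import Pool.Agent.K3h53.Evn.Form

/-!
The quadratic form is diagonal on the special vectors.
-/

set_option autoImplicit false

namespace Pool.Agent.K3h53.Evn

open Polynomial Matrix

variable {N : Type} [Field N] [CharZero N] {m d : ℕ}

theorem sum_swap (f : Fin m ⊕ Fin m → N) : ∑ c : Fin m ⊕ Fin m, f (Sum.swap c) = ∑ c, f c :=
  Fintype.sum_equiv (Equiv.sumComm (Fin m) (Fin m)) _ _ fun _ => rfl

/-- Different abscissae: orthogonal. -/
theorem off (S : N[X]) (T : N) (D : Fin m → N[X]) (a : Fin m → Fin m → N[X]) (hd : 0 < d)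
    (hS : S.natDegree = d) (hD : ∀ p, D p ≠ 0)
    (hdeg : ∀ p q, (D p * D q * a p q).natDegree < d) (ha : ∀ p q, a p q = a q p)
    (s : Fin d → N) (hs : ∀ j, S.eval (s j) = T)
    (hsD : ∀ j p, (D p).eval (s j) ≠ 0) (x : Fin (m * d) → N)
    (hxD : ∀ i p, (D p).eval (x i) ≠ 0) (e : Fin (m * d) → Fin m → N)
    (he : ∀ i p, (T - S.eval (x i)) * e i p =
      (D p).eval (x i) * ∑ q, (a p q).eval (x i) * e i q)
    (k l : Fin (m * d) ⊕ (Fin d × Fin m)) (hkl : ab x s k ≠ ab x s l) :
    ((vand d (ab x s) (uu D x s e))ᵀ * bez d (AA S D a) * vand d (ab x s) (uu D x s e)) k l = 0 := by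
  rw [quad_eq]
  have hne : ab x s k - ab x s l ≠ 0 := sub_ne_zero.2 hkl
  apply mul_left_cancel₀ hne
  rw [mul_zero, Finset.mul_sum]
  have h1 : ∀ c, (ab x s k - ab x s l) * ∑ c', uu D x s e k c * uu D x s e l c' *
      dd d (AA S D a c c') (ab x s k) (ab x s l) =
      uu D x s e k c * (∑ c', (AA S D a c c').eval (ab x s k) * uu D x s e l c') -
      uu D x s e k c * ∑ c', (AA S D a c c').eval (ab x s l) * uu D x s e l c' := by
    intro c
    rw [Finset.mul_sum, Finset.mul_sum, Finset.mul_sum, ← Finset.sum_sub_distrib]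
    refine Finset.sum_congr rfl fun c' _ => ?_
    have := dd_mul d (AA S D a c c') (AA_natDegree S D a hd hS hD hdeg c c') (ab x s k) (ab x s l)
    linear_combination (uu D x s e k c * uu D x s e l c') * this
  simp_rw [h1]
  rw [Finset.sum_sub_distrib]
  simp_rw [eig S T D a s hs hsD x hxD e he l]
  have h2 : ∑ c, uu D x s e k c * ∑ c', (AA S D a c c').eval (ab x s k) * uu D x s e l c' =
      ∑ c', (∑ c, (AA S D a c' c).eval (ab x s k) * uu D x s e k c) * uu D x s e l c' := by
    simp_rw [Finset.mul_sum, Finset.sum_mul]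
    rw [Finset.sum_comm]
    refine Finset.sum_congr rfl fun c' _ => Finset.sum_congr rfl fun c _ => ?_
    rw [AA_symm S D a ha c' c]
    ring
  rw [h2]
  simp_rw [eig S T D a s hs hsD x hxD e he k]
  rw [← sum_swap (fun c => uu D x s e k c * (T * uu D x s e l c.swap)), ← Finset.sum_sub_distrib]
  apply Finset.sum_eq_zero
  intro c _
  rw [Sum.swap_swap]
  ring

/-- The diagonal entry of a point. -/
theorem diagInl (S : N[X]) (D : Fin m → N[X]) (a : Fin m → Fin m → N[X]) (hd : 0 < d)
    (hS : S.natDegree = d) (hD : ∀ p, D p ≠ 0)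
    (hdeg : ∀ p q, (D p * D q * a p q).natDegree < d) (ha : ∀ p q, a p q = a q p)
    (s : Fin d → N) (x : Fin (m * d) → N)
    (hxD : ∀ i p, (D p).eval (x i) ≠ 0) (e : Fin (m * d) → Fin m → N) (h : Fin (m * d) → N)
    (hh : ∀ i, (derivative S).eval (x i) * ∑ p, e i p ^ 2 / (D p).eval (x i) +
      ∑ p, ∑ q, (derivative (D p)).eval (x i) / (D p).eval (x i) * e i p *
        (a p q).eval (x i) * e i q +
      ∑ p, ∑ q, (derivative (a p q)).eval (x i) * e i p * e i q = h i ^ 2) (i : Fin (m * d)) :
    ((vand d (ab x s) (uu D x s e))ᵀ * bez d (AA S D a) * vand d (ab x s) (uu D x s e))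
      (Sum.inl i) (Sum.inl i) = h i ^ 2 := by
  rw [quad_eq, ← hh i]
  simp_rw [dd_self d _ (AA_natDegree S D a hd hS hD hdeg _ _)]
  simp only [Fintype.sum_sum_type, AA, ab, uu]
  simp_rw [← Finset.sum_add_distrib]
  have key : ∀ p q : Fin m,
      e i p / (2 * (D p).eval (x i)) * (e i q / (2 * (D q).eval (x i))) *
          (derivative (D p * D q * a p q)).eval (x i) +
        e i p / (2 * (D p).eval (x i)) * e i q *
          (derivative ((if p = q then S else 0) + C (1 / 2) * (D p * a p q))).eval (x i) +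
        (e i p * (e i q / (2 * (D q).eval (x i))) *
          (derivative ((if p = q then S else 0) + C (1 / 2) * (D q * a p q))).eval (x i) +
        e i p * e i q * (derivative (C (1 / 4) * a p q)).eval (x i)) =
      (if p = q then (derivative S).eval (x i) * (e i q ^ 2 / (D q).eval (x i)) else 0) +
      (1 / 2 * ((derivative (D p)).eval (x i) / (D p).eval (x i) * e i p *
        (a p q).eval (x i) * e i q) +
      1 / 2 * ((derivative (D q)).eval (x i) / (D q).eval (x i) * e i q *
        (a q p).eval (x i) * e i p)) +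
      (derivative (a p q)).eval (x i) * e i p * e i q := by
    intro p q
    have h1 := hxD i p
    have h2 := hxD i q
    rw [← ha p q]
    simp only [derivative_mul, derivative_add, derivative_C, eval_add, eval_mul, eval_C]
    by_cases hpq : p = q
    · subst hpq
      simp only [if_true, eval_zero]
      field_simp
      ring
    · simp only [if_neg hpq, derivative_zero, eval_zero]
      field_simp
      ring
  simp_rw [key]
  simp_rw [Finset.sum_add_distrib]
  have h5 : ∑ p, ∑ q, (1 / 2 * ((derivative (D q)).eval (x i) / (D q).eval (x i) * e i q *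
        (a q p).eval (x i) * e i p)) = ∑ p, ∑ q, (1 / 2 * ((derivative (D p)).eval (x i) /
        (D p).eval (x i) * e i p * (a p q).eval (x i) * e i q)) := by
    rw [Finset.sum_comm]
  rw [h5]
  have h6 : ∑ p, ∑ q, (if p = q then (derivative S).eval (x i) * (e i q ^ 2 / (D q).eval (x i))
      else 0) = (derivative S).eval (x i) * ∑ p, e i p ^ 2 / (D p).eval (x i) := by
    rw [Finset.mul_sum]
    refine Finset.sum_congr rfl fun p _ => ?_
    rw [Finset.sum_ite_eq, if_pos (Finset.mem_univ p)]
  rw [h6]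
  congr 2
  rw [← Finset.sum_add_distrib]
  refine Finset.sum_congr rfl fun p _ => ?_
  rw [← Finset.sum_add_distrib]
  refine Finset.sum_congr rfl fun q _ => ?_
  ring

/-- The entries over a root of `S - T`. -/
theorem entInr (S : N[X]) (D : Fin m → N[X]) (a : Fin m → Fin m → N[X]) (hd : 0 < d)
    (hS : S.natDegree = d) (hD : ∀ p, D p ≠ 0)
    (hdeg : ∀ p q, (D p * D q * a p q).natDegree < d)
    (s : Fin d → N) (hsD : ∀ j p, (D p).eval (s j) ≠ 0) (x : Fin (m * d) → N)
    (e : Fin (m * d) → Fin m → N) (j : Fin d) (p q : Fin m) :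
    ((vand d (ab x s) (uu D x s e))ᵀ * bez d (AA S D a) * vand d (ab x s) (uu D x s e))
      (Sum.inr (j, p)) (Sum.inr (j, q)) =
      if p = q then - (derivative S).eval (s j) / (D p).eval (s j) else 0 := by
  rw [quad_eq]
  simp only [ab]
  simp_rw [dd_self d _ (AA_natDegree S D a hd hS hD hdeg _ _)]
  simp only [Fintype.sum_sum_type, AA, uu, mul_ite, mul_zero, ite_mul, zero_mul,
    Finset.sum_ite_eq, Finset.sum_add_distrib,
    Finset.mem_univ, if_true, mul_one, one_mul]
  have h1 := hsD j p
  have h2 := hsD j q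
  simp only [derivative_mul, derivative_add, derivative_C, eval_add, eval_mul, eval_C]
  by_cases hpq : p = q
  · subst hpq
    simp only [if_true, eval_zero]
    field_simp
    ring
  · simp only [if_neg hpq, derivative_zero, eval_zero]
    field_simp
    ring

end Pool.Agent.K3h53.Evn
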