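import Pool.Agent.K3h17.Stm
import Pool.Agent.K3h53.Evn.Diag

/-!
Brick E of the project of helper17: parity of a permutation by a determinant.
-/

set_option autoImplicit false

namespace Pool.Agent.K3h53.Evn

open Polynomial Matrix

section Roots

variable {N : Type} [Field N] {d : ℕ}

/-- A polynomial of degree `d` with `d` distinct values `T`: all the roots of `S - T` and
simplicity. -/
theorem roots_all (S : N[X]) (T : N) (hd : 0 < d) (hS : S.natDegree = d) (s : Fin d → N)
    (hsinj : Function.Injective s) (hs : ∀ j, S.eval (s j) = T) :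
    (∀ y, S.eval y = T → ∃ j, s j = y) ∧ ∀ j, (derivative S).eval (s j) ≠ 0 := by
  classical
  set P : N[X] := S - C T with hP
  have hPd : P.natDegree = d := by
    rw [hP, natDegree_sub_C, hS]
  have hP0 : P ≠ 0 := by
    intro h
    rw [h, natDegree_zero] at hPd
    omega
  have hroot : ∀ j, P.IsRoot (s j) := by
    intro j
    rw [IsRoot, hP, eval_sub, eval_C, hs j, sub_self]
  have hsub : Finset.univ.image s ⊆ P.roots.toFinset := by
    intro y hy
    rw [Finset.mem_image] at hy
    obtain ⟨j, _, rfl⟩ := hy
    rw [Multiset.mem_toFinset, mem_roots hP0]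
    exact hroot j
  have hc1 : (Finset.univ.image s).card = d := by
    rw [Finset.card_image_of_injective _ hsinj, Finset.card_univ, Fintype.card_fin]
  have hc2 : P.roots.toFinset.card ≤ Multiset.card P.roots := Multiset.toFinset_card_le _
  have hc3 : Multiset.card P.roots ≤ d := hPd ▸ card_roots' P
  have hc4 := Finset.card_le_card hsub
  have heq : Finset.univ.image s = P.roots.toFinset :=
    Finset.eq_of_subset_of_card_le hsub (by omega)
  have hnd : P.roots.Nodup := by
    rw [← Multiset.toFinset_card_eq_card_iff_nodup]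
    omega
  constructor
  · intro y hy
    have h1 : y ∈ P.roots.toFinset := by
      rw [Multiset.mem_toFinset, mem_roots hP0, IsRoot, hP, eval_sub, eval_C, hy, sub_self]
    rw [← heq, Finset.mem_image] at h1
    obtain ⟨j, _, hj⟩ := h1
    exact ⟨j, hj⟩
  · intro j hj
    have h1 : 1 < P.rootMultiplicity (s j) := by
      rw [one_lt_rootMultiplicity_iff_isRoot hP0]
      refine ⟨hroot j, ?_⟩
      rw [IsRoot, hP, derivative_sub, derivative_C, sub_zero]
      exact hj
    have h2 : P.rootMultiplicity (s j) ≤ 1 := by
      rw [← count_roots]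
      exact Multiset.nodup_iff_count_le_one.1 hnd _
    omega

end Roots

theorem eval_map_equiv {N : Type} [Field N] (σ : N ≃+* N) (f : N[X])
    (hf : f.map (σ : N →+* N) = f) (y : N) : σ (f.eval y) = f.eval (σ y) := by
  conv_rhs => rw [← hf]
  rw [eval_map]
  exact (eval₂_at_apply (σ : N →+* N) y).symm

theorem coeff_map_equiv {N : Type} [Field N] (σ : N ≃+* N) (f : N[X])
    (hf : f.map (σ : N →+* N) = f) (n : ℕ) : σ (f.coeff n) = f.coeff n := by
  conv_rhs => rw [← hf]
  rw [coeff_map]
  rfl

theorem t_evn : Pool.Agent.K3h17.St_evn := by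
  intro N _ _ m d hm hd σ S T g D a hS hg hD ha hdeg s hsinj hs hsD x hxinj hxT hxD e h hh0
    he hh hσS hσT hσg hσD hσa π hπx hπe hπh
  classical
  obtain ⟨hall, hsimple⟩ := roots_all S T hd hS s hsinj hs
  -- the permutation of the roots
  have hτ0 : ∀ j, ∃ j', s j' = σ (s j) := by
    intro j
    apply hall
    rw [← eval_map_equiv σ S hσS, hs j, hσT]
  choose τf hτf using hτ0
  have hτinj : Function.Injective τf := by
    intro j j' hjj
    apply hsinj
    apply σ.injective
    rw [← hτf j, ← hτf j', hjj]
  let τ : Equiv.Perm (Fin d) := Equiv.ofBijective τf ((Finite.injective_iff_bijective).1 hτinj)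
  have hτ : ∀ j, σ (s j) = s (τ j) := fun j => (hτf j).symm
  -- the matrices
  set V := vand d (ab x s) (uu D x s e) with hV
  set B := bez d (AA S D a) with hB
  have hcard : Fintype.card (Fin d × (Fin m ⊕ Fin m)) =
      Fintype.card (Fin (m * d) ⊕ (Fin d × Fin m)) := by
    simp only [Fintype.card_prod, Fintype.card_sum, Fintype.card_fin]
    ring
  let φ : (Fin d × (Fin m ⊕ Fin m)) ≃ (Fin (m * d) ⊕ (Fin d × Fin m)) :=
    Fintype.equivOfCardEq hcard
  set W : Matrix (Fin d × (Fin m ⊕ Fin m)) (Fin d × (Fin m ⊕ Fin m)) N := V.submatrix id φ with hW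
  let δ : Fin (m * d) ⊕ (Fin d × Fin m) → N := fun c => match c with
    | Sum.inl i => h i ^ 2
    | Sum.inr jp => - (derivative S).eval (s jp.1) / (D jp.2).eval (s jp.1)
  have hG : Vᵀ * B * V = Matrix.diagonal δ := by
    ext k l
    by_cases hkl : k = l
    · subst hkl
      rw [Matrix.diagonal_apply_eq]
      rcases k with i | ⟨j, p⟩
      · exact diagInl S D a hd hS hD hdeg ha s x hxD e h hh i
      · rw [hV, hB, entInr S D a hd hS hD hdeg s hsD x e j p p, if_pos rfl]
    · rw [Matrix.diagonal_apply_ne _ hkl]
      by_cases hab : ab x s k = ab x s l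
      · rcases k with i | ⟨j, p⟩
        · rcases l with i' | ⟨j', p'⟩
          · exact absurd (congrArg Sum.inl (hxinj hab)) hkl
          · exfalso
            apply hxT i
            have : x i = s j' := hab
            rw [this, hs]
        · rcases l with i' | ⟨j', p'⟩
          · exfalso
            apply hxT i'
            have : s j = x i' := hab
            rw [← this, hs]
          · have hjj : j = j' := hsinj hab
            subst hjj
            rw [hV, hB, entInr S D a hd hS hD hdeg s hsD x e j p p', if_neg]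
            intro hpp
            apply hkl
            rw [hpp]
      · exact off S T D a hd hS hD hdeg ha s hs hsD x hxD e he k l hab
  have hWG : Wᵀ * B * W = (Matrix.diagonal δ).submatrix φ φ := by
    rw [← hG, hW]
    ext r r'
    simp only [Matrix.mul_apply, Matrix.submatrix_apply, Matrix.transpose_apply, id]
  have hdet1 : W.det * B.det * W.det = ∏ c, δ c := by
    have := congrArg Matrix.det hWG
    rw [Matrix.det_mul, Matrix.det_mul, Matrix.det_transpose, Matrix.det_submatrix_equiv_self,
      Matrix.det_diagonal] at this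
    exact this
  -- the determinant of the Hankel matrix
  obtain ⟨t, ht⟩ := hm
  have hlc : B.det = (S.coeff d ^ (m * d)) ^ 2 := by
    rw [hB, det_bez d (AA S D a) (AA_natDegree S D a hd hS hD hdeg) (by simp),
      AA_coeff S D a hd hD hdeg, Matrix.det_smul, det_swap m ⟨t, ht⟩]
    simp only [Fintype.card_sum, Fintype.card_fin, mul_one]
    rw [← pow_mul, ← pow_mul]
    congr 1
    ring
  -- the product of the diagonal
  set Ξ : N := (∏ i, h i) * ∏ j, ((derivative S).eval (s j) ^ t / g.eval (s j)) with hΞ
  have hprod : ∏ c, δ c = Ξ ^ 2 := by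
    rw [Fintype.prod_sum_type, Fintype.prod_prod_type, hΞ, mul_pow, ← Finset.prod_pow,
      ← Finset.prod_pow]
    congr 1
    refine Finset.prod_congr rfl fun j _ => ?_
    have h1 : ∀ p : Fin m, δ (Sum.inr (j, p)) =
        - (derivative S).eval (s j) / (D p).eval (s j) := fun p => rfl
    simp_rw [h1]
    have h2 : ∏ p, (D p).eval (s j) = (g.eval (s j)) ^ 2 := by
      rw [← eval_pow, hg, eval_prod]
    rw [Finset.prod_div_distrib, Finset.prod_const, Finset.card_univ, Fintype.card_fin,
      div_pow, ← pow_mul, h2]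
    congr 1
    rw [ht, ← two_mul, pow_mul, neg_sq, ← pow_mul, mul_comm 2 t]
  have hΞ0 : Ξ ≠ 0 := by
    rw [hΞ]
    refine mul_ne_zero (Finset.prod_ne_zero_iff.2 fun i _ => hh0 i)
      (Finset.prod_ne_zero_iff.2 fun j _ => div_ne_zero (pow_ne_zero _ (hsimple j)) ?_)
    intro h0
    have h1 : (g ^ 2).eval (s j) = 0 := by
      rw [eval_pow, h0]
      ring
    rw [hg, eval_prod, Finset.prod_eq_zero_iff] at h1
    obtain ⟨p, _, hp⟩ := h1
    exact hsD j p hp
  have hσΞ : σ Ξ = Ξ := by
    rw [hΞ, map_mul, map_prod, map_prod]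
    congr 1
    · simp_rw [hπh]
      exact Equiv.prod_comp π h
    · have h1 : ∀ j, σ ((derivative S).eval (s j) ^ t / g.eval (s j)) =
          (derivative S).eval (s (τ j)) ^ t / g.eval (s (τ j)) := by
        intro j
        rw [map_div₀, map_pow, eval_map_equiv σ g hσg,
          eval_map_equiv σ (derivative S) (by rw [← derivative_map, hσS]), hτ j]
      simp_rw [h1]
      exact Equiv.prod_comp τ (fun j => (derivative S).eval (s j) ^ t / g.eval (s j))
  -- the square root
  set w : N := W.det * S.coeff d ^ (m * d) with hw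
  have hw2 : w ^ 2 = Ξ ^ 2 := by
    rw [← hprod, ← hdet1, hlc, hw]
    ring
  have hσw : σ w = w := by
    rcases sq_eq_sq_iff_eq_or_eq_neg.1 hw2 with h1 | h1
    · rw [h1, hσΞ]
    · rw [h1, map_neg, hσΞ]
  have hw0 : w ≠ 0 := by
    intro h0
    rw [h0] at hw2
    apply hΞ0
    have : Ξ ^ 2 = 0 := by
      rw [← hw2]
      ring
    exact pow_eq_zero_iff (two_ne_zero) |>.1 this
  -- the action on the determinant
  let ρ : Equiv.Perm (Fin (m * d) ⊕ (Fin d × Fin m)) :=
    Equiv.Perm.sumCongr π (Equiv.prodCongrLeft fun _ : Fin m => τ)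
  have hρ : ∀ r c, σ (V r c) = V r (ρ c) := by
    rintro ⟨b, c'⟩ c
    rcases c with i | ⟨j, p⟩
    · have h1 : ρ (Sum.inl i) = Sum.inl (π i) := rfl
      rw [h1]
      rcases c' with q | q
      · simp only [hV, vand, Matrix.of_apply, ab, uu]
        rw [map_mul, map_pow, map_div₀, map_mul, hπx, hπe, eval_map_equiv σ _ (hσD q), hπx,
          map_ofNat]
      · simp only [hV, vand, Matrix.of_apply, ab, uu]
        rw [map_mul, map_pow, hπx, hπe]
    · have h1 : ρ (Sum.inr (j, p)) = Sum.inr (τ j, p) := rfl
      rw [h1]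
      rcases c' with q | q
      · simp only [hV, vand, Matrix.of_apply, ab, uu]
        rw [map_mul, map_pow, hτ]
        congr 1
        split_ifs
        · rw [map_div₀, map_mul, map_neg, map_one, map_ofNat, eval_map_equiv σ _ (hσD q), hτ]
        · exact map_zero _
      · simp only [hV, vand, Matrix.of_apply, ab, uu]
        rw [map_mul, map_pow, hτ]
        congr 1
        split_ifs
        · exact map_one _
        · exact map_zero _
  have hσdet : σ W.det = Equiv.Perm.sign π * W.det := by
    have h1 : σ W.det = ((σ : N →+* N).mapMatrix W).det := (σ : N →+* N).map_det W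
    have h2 : (σ : N →+* N).mapMatrix W = W.submatrix id ((φ.trans ρ).trans φ.symm) := by
      ext r r'
      rw [RingHom.mapMatrix_apply, Matrix.map_apply, Matrix.submatrix_apply, hW,
        Matrix.submatrix_apply, Matrix.submatrix_apply]
      have h3 : φ (((φ.trans ρ).trans φ.symm) r') = ρ (φ r') := by
        simp
      rw [h3]
      exact hρ _ _
    have h4 : Equiv.Perm.sign ((φ.trans ρ).trans φ.symm) = Equiv.Perm.sign π := by
      rw [Equiv.Perm.sign_trans_trans_symm]
      change Equiv.Perm.sign (Equiv.Perm.sumCongr π (Equiv.prodCongrLeft fun _ : Fin m => τ)) = _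
      rw [Equiv.Perm.sign_sumCongr, Equiv.Perm.sign_prodCongrLeft, Finset.prod_const,
        Finset.card_univ, Fintype.card_fin, sign_pow_even τ m ⟨t, ht⟩, mul_one]
    rw [h1, h2, Matrix.det_permute', h4]
  have hfin : w = Equiv.Perm.sign π * w := by
    have h1 : σ w = Equiv.Perm.sign π * w := by
      rw [hw, map_mul, map_pow, coeff_map_equiv σ S hσS, hσdet]
      ring
    rw [← h1, hσw]
  rcases Int.units_eq_one_or (Equiv.Perm.sign π) with h1 | h1
  · exact h1
  · exfalso
    rw [h1] at hfin
    apply hw0
    have h2 : w = - w := by simpa using hfin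
    have h3 : (2 : N) * w = 0 := by
      linear_combination h2
    exact (mul_eq_zero.1 h3).resolve_left two_ne_zero

end Pool.Agent.K3h53.Evn
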