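import Mathlib

/-!
The determinant of a block Hankel matrix of polynomial coefficients.
-/

set_option autoImplicit false

namespace Pool.Agent.K3h53.Evn

open Polynomial Matrix

variable {N : Type} [Field N] {κ : Type} [Fintype κ] [DecidableEq κ]

/-- The block Hankel matrix of a polynomial matrix. -/
def bez (d : ℕ) (A : κ → κ → N[X]) : Matrix (Fin d × κ) (Fin d × κ) N :=
  Matrix.of fun r r' => (A r.2 r'.2).coeff ((r.1 : ℕ) + (r'.1 : ℕ) + 1)

/-- Reversal of the first coordinate. -/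
def rv (d : ℕ) (κ : Type) : Equiv.Perm (Fin d × κ) :=
  Equiv.prodCongrLeft fun _ : κ => (Fin.revPerm : Equiv.Perm (Fin d))

theorem rv_fst (d : ℕ) (r : Fin d × κ) : (rv d κ r).1 = Fin.rev r.1 := rfl

theorem rv_snd (d : ℕ) (r : Fin d × κ) : (rv d κ r).2 = r.2 := rfl

theorem sign_pow_even {α : Type} [Fintype α] [DecidableEq α] (τ : Equiv.Perm α) (n : ℕ)
    (hn : Even n) : (Equiv.Perm.sign τ) ^ n = 1 := by
  rcases Int.units_eq_one_or (Equiv.Perm.sign τ) with h | h
  · rw [h, one_pow]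
  · rw [h, hn.neg_one_pow]

theorem sign_rv (d : ℕ) (hκ : Even (Fintype.card κ)) : Equiv.Perm.sign (rv d κ) = 1 := by
  rw [rv, Equiv.Perm.sign_prodCongrLeft, Finset.prod_const, Finset.card_univ]
  exact sign_pow_even _ _ hκ

theorem det_bez (d : ℕ) (A : κ → κ → N[X]) (hA : ∀ c c', (A c c').natDegree ≤ d)
    (hκ : Even (Fintype.card κ)) :
    (bez d A).det = (Matrix.of fun c c' => (A c c').coeff d).det ^ d := by
  classical
  set R : Matrix (Fin d × κ) (Fin d × κ) N := (bez d A).submatrix (rv d κ) id with hR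
  have h1 : R.det = (bez d A).det := by
    rw [hR, Matrix.det_permute, sign_rv d hκ]
    simp
  have hRe : ∀ r r', R r r' = (A r.2 r'.2).coeff (d - (r.1 : ℕ) + (r'.1 : ℕ)) := by
    intro r r'
    rw [hR, Matrix.submatrix_apply, bez, Matrix.of_apply, rv_snd, rv_fst, Fin.val_rev, id]
    congr 1
    omega
  have h2 : R.BlockTriangular (fun r => OrderDual.toDual r.1) := by
    intro r r' hrr
    have h3 : r.1 < r'.1 := hrr
    rw [hRe]
    apply coeff_eq_zero_of_natDegree_lt
    refine lt_of_le_of_lt (hA _ _) ?_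
    have h4 : (r.1 : ℕ) < (r'.1 : ℕ) := h3
    omega
  rw [← h1, h2.det_fintype]
  have h5 : ∀ k : (Fin d)ᵒᵈ, (R.toSquareBlock (fun r => OrderDual.toDual r.1) k).det =
      (Matrix.of fun c c' => (A c c').coeff d).det := by
    intro k
    let φ : {r : Fin d × κ // OrderDual.toDual r.1 = k} ≃ κ :=
      { toFun := fun r => r.1.2
        invFun := fun c => ⟨(OrderDual.ofDual k, c), rfl⟩
        left_inv := by
          rintro ⟨⟨a, c⟩, h⟩
          apply Subtype.ext
          apply Prod.ext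
          · exact (congrArg OrderDual.ofDual h).symm
          · rfl
        right_inv := fun c => rfl }
    rw [← Matrix.det_submatrix_equiv_self φ.symm]
    congr 1
    ext c c'
    rw [Matrix.submatrix_apply, Matrix.toSquareBlock_def, Matrix.of_apply, hRe, Matrix.of_apply]
    change (A c c').coeff (d - ((OrderDual.ofDual k : Fin d) : ℕ) +
      ((OrderDual.ofDual k : Fin d) : ℕ)) = _
    congr 1
    have := (OrderDual.ofDual k : Fin d).isLt
    omega
  rw [Finset.prod_congr rfl fun k _ => h5 k, Finset.prod_const, Finset.card_univ]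
  congr 1
  simp

/-- The matrix `[[0, 1], [1, 0]]` has determinant `(-1)^m`. -/
theorem det_swap (m : ℕ) (hm : Even m) :
    (Matrix.fromBlocks 0 1 1 0 : Matrix (Fin m ⊕ Fin m) (Fin m ⊕ Fin m) N).det = 1 := by
  have h1 : (Matrix.fromBlocks 0 1 1 0 : Matrix (Fin m ⊕ Fin m) (Fin m ⊕ Fin m) N) *
      Matrix.fromBlocks 1 1 0 1 = Matrix.fromBlocks 0 1 1 1 := by
    rw [Matrix.fromBlocks_multiply]
    simp
  have h2 : (Matrix.fromBlocks 1 1 0 1 : Matrix (Fin m ⊕ Fin m) (Fin m ⊕ Fin m) N).det = 1 := by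
    rw [Matrix.det_fromBlocks_zero₂₁]
    simp
  have h3 : (Matrix.fromBlocks 0 1 1 1 : Matrix (Fin m ⊕ Fin m) (Fin m ⊕ Fin m) N).det = 1 := by
    rw [Matrix.det_fromBlocks_one₂₂, Matrix.mul_one, zero_sub, Matrix.det_neg, Matrix.det_one,
      Fintype.card_fin, hm.neg_one_pow, one_mul]
  rw [← h3, ← h1, Matrix.det_mul, h2, mul_one]

end Pool.Agent.K3h53.Evn
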