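import Mathlib

/-!
Divided difference sums of a polynomial.
-/

set_option autoImplicit false

namespace Pool.Agent.K3h53.Evn

open Polynomial Finset

variable {N : Type} [Field N]

/-- The sum of `x ^ a * y ^ b * f_(a+b+1)` over `a, b < d`. -/
noncomputable def dd (d : ℕ) (f : N[X]) (x y : N) : N :=
  ∑ a ∈ range d, ∑ b ∈ range d, x ^ a * y ^ b * f.coeff (a + b + 1)

theorem inner_eq (d k : ℕ) (hk : k ≤ d) (x y : N) :
    ∑ a ∈ range k, x ^ a * y ^ (k - 1 - a) =
      ∑ a ∈ range d, ∑ b ∈ range d, if k = a + b + 1 then x ^ a * y ^ b else 0 := by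
  have h : ∀ a ∈ range d, (∑ b ∈ range d, if k = a + b + 1 then x ^ a * y ^ b else 0) =
      if a < k then x ^ a * y ^ (k - 1 - a) else 0 := by
    intro a ha
    rw [mem_range] at ha
    by_cases hak : a < k
    · rw [if_pos hak, Finset.sum_eq_single (k - 1 - a)]
      · rw [if_pos (by omega)]
      · intro b _ hb
        rw [if_neg (by omega)]
      · intro hb
        exact absurd (mem_range.2 (by omega)) hb
    · rw [if_neg hak]
      apply Finset.sum_eq_zero
      intro b _
      rw [if_neg (by omega)]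
  rw [Finset.sum_congr rfl h, ← Finset.sum_filter]
  congr 1
  ext a
  simp only [mem_filter, mem_range]
  omega

theorem dd_eq (d : ℕ) (f : N[X]) (hf : f.natDegree ≤ d) (x y : N) :
    dd d f x y =
      ∑ k ∈ range (d + 1), f.coeff k * ∑ a ∈ range k, x ^ a * y ^ (k - 1 - a) := by
  have h1 : ∀ k ∈ range (d + 1), f.coeff k * ∑ a ∈ range k, x ^ a * y ^ (k - 1 - a) =
      ∑ a ∈ range d, ∑ b ∈ range d,
        if k = a + b + 1 then f.coeff k * (x ^ a * y ^ b) else 0 := by
    intro k hk
    rw [inner_eq d k (by rw [mem_range] at hk; omega), Finset.mul_sum]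
    refine Finset.sum_congr rfl fun a _ => ?_
    rw [Finset.mul_sum]
    refine Finset.sum_congr rfl fun b _ => ?_
    split_ifs <;> simp
  rw [Finset.sum_congr rfl h1, Finset.sum_comm, dd]
  refine Finset.sum_congr rfl fun a _ => ?_
  rw [Finset.sum_comm]
  refine Finset.sum_congr rfl fun b _ => ?_
  rw [Finset.sum_ite_eq' (range (d + 1)) (a + b + 1)]
  by_cases h : a + b + 1 ∈ range (d + 1)
  · rw [if_pos h]
    ring
  · rw [if_neg h, coeff_eq_zero_of_natDegree_lt (by rw [mem_range] at h; omega), mul_zero]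

theorem dd_mul (d : ℕ) (f : N[X]) (hf : f.natDegree ≤ d) (x y : N) :
    (x - y) * dd d f x y = f.eval x - f.eval y := by
  rw [dd_eq d f hf, eval_eq_sum_range' (Nat.lt_succ_of_le hf) x,
    eval_eq_sum_range' (Nat.lt_succ_of_le hf) y, ← Finset.sum_sub_distrib, Finset.mul_sum]
  refine Finset.sum_congr rfl fun k _ => ?_
  rw [← mul_sub, ← geom_sum₂_mul]
  ring

theorem dd_self (d : ℕ) (f : N[X]) (hf : f.natDegree ≤ d) (x : N) :
    dd d f x x = (derivative f).eval x := by
  rw [dd_eq d f hf, derivative_eval, Polynomial.sum_over_range' _ _ (d + 1) (by omega)]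
  · refine Finset.sum_congr rfl fun k _ => ?_
    have : ∀ a ∈ range k, x ^ a * x ^ (k - 1 - a) = x ^ (k - 1) := by
      intro a ha
      rw [mem_range] at ha
      rw [← pow_add]
      congr 1
      omega
    rw [Finset.sum_congr rfl this, Finset.sum_const, card_range, nsmul_eq_mul]
    ring
  · intro n
    simp

end Pool.Agent.K3h53.Evn
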