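import Pool.Agent.K3h53.Evn.Quad

/-!
The symmetric polynomial matrix of the brick and its values on the special vectors.
-/

set_option autoImplicit false

namespace Pool.Agent.K3h53.Evn

open Polynomial Matrix

variable {N : Type} [Field N] [CharZero N] {m d : ℕ}

/-- The symmetric polynomial matrix `S Jh + Bᵀ a B`. -/
noncomputable def AA (S : N[X]) (D : Fin m → N[X]) (a : Fin m → Fin m → N[X]) :
    (Fin m ⊕ Fin m) → (Fin m ⊕ Fin m) → N[X]
  | Sum.inl p, Sum.inl q => D p * D q * a p q
  | Sum.inl p, Sum.inr q => (if p = q then S else 0) + C (1 / 2) * (D p * a p q)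
  | Sum.inr p, Sum.inl q => (if p = q then S else 0) + C (1 / 2) * (D q * a p q)
  | Sum.inr p, Sum.inr q => C (1 / 4) * a p q

theorem AA_symm (S : N[X]) (D : Fin m → N[X]) (a : Fin m → Fin m → N[X])
    (ha : ∀ p q, a p q = a q p) (c c' : Fin m ⊕ Fin m) : AA S D a c c' = AA S D a c' c := by
  rcases c with p | p <;> rcases c' with q | q
  · simp only [AA]
    rw [ha p q]
    ring
  · simp only [AA]
    rw [ha p q]
    simp only [eq_comm]
  · simp only [AA]
    rw [ha p q]
    simp only [eq_comm]
  · simp only [AA]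
    rw [ha p q]

theorem deg_aux (D : Fin m → N[X]) (a : Fin m → Fin m → N[X]) (hd : 0 < d)
    (hD : ∀ p, D p ≠ 0) (hdeg : ∀ p q, (D p * D q * a p q).natDegree < d) (p q : Fin m) :
    (D p * a p q).natDegree < d ∧ (D q * a p q).natDegree < d ∧ (a p q).natDegree < d := by
  have h := hdeg p q
  by_cases h0 : a p q = 0
  · simp [h0, hd]
  · rw [natDegree_mul (mul_ne_zero (hD p) (hD q)) h0, natDegree_mul (hD p) (hD q)] at h
    rw [natDegree_mul (hD p) h0, natDegree_mul (hD q) h0]
    omega

theorem AA_natDegree (S : N[X]) (D : Fin m → N[X]) (a : Fin m → Fin m → N[X]) (hd : 0 < d)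
    (hS : S.natDegree = d) (hD : ∀ p, D p ≠ 0)
    (hdeg : ∀ p q, (D p * D q * a p q).natDegree < d) (c c' : Fin m ⊕ Fin m) :
    (AA S D a c c').natDegree ≤ d := by
  have hif : ∀ p q : Fin m, (if p = q then S else 0 : N[X]).natDegree ≤ d := by
    intro p q
    split_ifs
    · exact hS.le
    · simp
  rcases c with p | p <;> rcases c' with q | q <;> simp only [AA]
  · exact (hdeg p q).le
  · refine (natDegree_add_le _ _).trans (max_le (hif p q) ?_)
    exact (natDegree_C_mul_le _ _).trans (deg_aux D a hd hD hdeg p q).1.le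
  · refine (natDegree_add_le _ _).trans (max_le (hif p q) ?_)
    exact (natDegree_C_mul_le _ _).trans (deg_aux D a hd hD hdeg p q).2.1.le
  · exact (natDegree_C_mul_le _ _).trans (deg_aux D a hd hD hdeg p q).2.2.le

theorem AA_coeff (S : N[X]) (D : Fin m → N[X]) (a : Fin m → Fin m → N[X]) (hd : 0 < d)
    (hD : ∀ p, D p ≠ 0)
    (hdeg : ∀ p q, (D p * D q * a p q).natDegree < d) :
    (Matrix.of fun c c' => (AA S D a c c').coeff d) =
      S.coeff d • (Matrix.fromBlocks 0 1 1 0 : Matrix (Fin m ⊕ Fin m) (Fin m ⊕ Fin m) N) := by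
  ext c c'
  rcases c with p | p <;> rcases c' with q | q <;>
    simp only [AA, Matrix.of_apply, Matrix.smul_apply, Matrix.fromBlocks_apply₁₁,
      Matrix.fromBlocks_apply₁₂, Matrix.fromBlocks_apply₂₁, Matrix.fromBlocks_apply₂₂,
      smul_eq_mul, Matrix.zero_apply, mul_zero, coeff_add, coeff_C_mul]
  · exact coeff_eq_zero_of_natDegree_lt (hdeg p q)
  · rw [coeff_eq_zero_of_natDegree_lt (deg_aux D a hd hD hdeg p q).1, Matrix.one_apply]
    split_ifs <;> simp
  · rw [coeff_eq_zero_of_natDegree_lt (deg_aux D a hd hD hdeg p q).2.1, Matrix.one_apply]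
    split_ifs <;> simp
  · rw [coeff_eq_zero_of_natDegree_lt (deg_aux D a hd hD hdeg p q).2.2, mul_zero]

/-- The abscissae. -/
def ab (x : Fin (m * d) → N) (s : Fin d → N) : Fin (m * d) ⊕ (Fin d × Fin m) → N
  | Sum.inl i => x i
  | Sum.inr jp => s jp.1

/-- The vectors. -/
noncomputable def uu (D : Fin m → N[X]) (x : Fin (m * d) → N) (s : Fin d → N)
    (e : Fin (m * d) → Fin m → N) :
    Fin (m * d) ⊕ (Fin d × Fin m) → (Fin m ⊕ Fin m) → N
  | Sum.inl i, Sum.inl p => e i p / (2 * (D p).eval (x i))
  | Sum.inl i, Sum.inr p => e i p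
  | Sum.inr jp, Sum.inl q => if jp.2 = q then -1 / (2 * (D q).eval (s jp.1)) else 0
  | Sum.inr jp, Sum.inr q => if jp.2 = q then 1 else 0

/-- The vectors are eigenvectors of `(A(ξ), Jh)`. -/
theorem eig (S : N[X]) (T : N) (D : Fin m → N[X]) (a : Fin m → Fin m → N[X])
    (s : Fin d → N) (hs : ∀ j, S.eval (s j) = T)
    (hsD : ∀ j p, (D p).eval (s j) ≠ 0) (x : Fin (m * d) → N)
    (hxD : ∀ i p, (D p).eval (x i) ≠ 0) (e : Fin (m * d) → Fin m → N)
    (he : ∀ i p, (T - S.eval (x i)) * e i p =
      (D p).eval (x i) * ∑ q, (a p q).eval (x i) * e i q)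
    (k : Fin (m * d) ⊕ (Fin d × Fin m)) (c : Fin m ⊕ Fin m) :
    ∑ c', (AA S D a c c').eval (ab x s k) * uu D x s e k c' = T * uu D x s e k c.swap := by
  have two : (2 : N) ≠ 0 := two_ne_zero
  rcases k with i | ⟨j, p'⟩
  · rcases c with p | p
    · rw [Fintype.sum_sum_type]
      simp only [AA, ab, uu, Sum.swap_inl]
      have h1 : ∀ q, ((D p * D q * a p q).eval (x i)) * (e i q / (2 * (D q).eval (x i))) =
          (1 / 2) * ((D p).eval (x i) * ((a p q).eval (x i) * e i q)) := by
        intro q
        have := hxD i q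
        rw [eval_mul, eval_mul]
        field_simp
      have h2 : ∀ q, ((if p = q then S else 0) + C (1 / 2) * (D p * a p q)).eval (x i) * e i q =
          (if p = q then S.eval (x i) * e i q else 0) +
          (1 / 2) * ((D p).eval (x i) * ((a p q).eval (x i) * e i q)) := by
        intro q
        rw [eval_add, eval_mul, eval_C, eval_mul]
        split_ifs
        · ring
        · rw [eval_zero]
          ring
      simp_rw [h1, h2]
      rw [Finset.sum_add_distrib, Finset.sum_ite_eq, if_pos (Finset.mem_univ p), ← Finset.mul_sum,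
        ← Finset.mul_sum, ← he i p]
      ring
    · rw [Fintype.sum_sum_type]
      simp only [AA, ab, uu, Sum.swap_inr]
      have hp := hxD i p
      have h1 : ∀ q, ((if p = q then S else 0) + C (1 / 2) * (D q * a p q)).eval (x i) *
          (e i q / (2 * (D q).eval (x i))) =
          (if p = q then S.eval (x i) * (e i q / (2 * (D q).eval (x i))) else 0) +
          (1 / 4) * ((a p q).eval (x i) * e i q) := by
        intro q
        have := hxD i q
        rw [eval_add, eval_mul, eval_C, eval_mul]
        split_ifs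
        · field_simp
          ring
        · rw [eval_zero]
          field_simp
          ring
      have h2 : ∀ q, (C (1 / 4) * a p q).eval (x i) * e i q =
          (1 / 4) * ((a p q).eval (x i) * e i q) := by
        intro q
        rw [eval_mul, eval_C]
        ring
      simp_rw [h1, h2]
      rw [Finset.sum_add_distrib, Finset.sum_ite_eq, if_pos (Finset.mem_univ p), ← Finset.mul_sum]
      have h3 := he i p
      have h4 : ∑ q, (a p q).eval (x i) * e i q = (T - S.eval (x i)) * e i p / (D p).eval (x i) := by
        rw [h3]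
        field_simp
      rw [h4]
      field_simp
      ring
  · have hT := hs j
    rcases c with p | p
    · rw [Fintype.sum_sum_type]
      simp only [AA, ab, uu, Sum.swap_inl, mul_ite, mul_zero, Finset.sum_ite_eq,
        Finset.mem_univ, if_true, mul_one]
      rw [eval_mul, eval_mul, eval_add, eval_mul, eval_C, eval_mul]
      have := hsD j p'
      by_cases hpp : p = p'
      · subst hpp
        simp only [if_true]
        rw [hT]
        field_simp
        ring
      · rw [if_neg hpp, if_neg (Ne.symm hpp), eval_zero]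
        field_simp
        ring
    · rw [Fintype.sum_sum_type]
      simp only [AA, ab, uu, Sum.swap_inr, mul_ite, mul_zero, Finset.sum_ite_eq,
        Finset.mem_univ, if_true, mul_one]
      rw [eval_mul, eval_add, eval_mul, eval_C, eval_C, eval_mul]
      have := hsD j p'
      by_cases hpp : p = p'
      · subst hpp
        simp only [if_true]
        rw [hT]
        field_simp
        ring
      · rw [if_neg hpp, if_neg (Ne.symm hpp), eval_zero]
        field_simp
        ring

end Pool.Agent.K3h53.Evn
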