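import Pool.Agent.K3h53.Evn.DD
import Pool.Agent.K3h53.Evn.Blk

/-!
The quadratic form of the block Hankel matrix on Vandermonde type vectors.
-/

set_option autoImplicit false

namespace Pool.Agent.K3h53.Evn

open Polynomial Matrix

variable {N : Type} [Field N] {κ ι : Type} [Fintype κ]

/-- Vandermonde type matrix. -/
def vand (d : ℕ) (ξ : ι → N) (u : ι → κ → N) : Matrix (Fin d × κ) ι N :=
  Matrix.of fun r c => ξ c ^ (r.1 : ℕ) * u c r.2

theorem quad_eq (d : ℕ) (A : κ → κ → N[X]) (ξ : ι → N) (u : ι → κ → N) (k l : ι) :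
    ((vand d ξ u)ᵀ * bez d A * vand d ξ u) k l =
      ∑ c, ∑ c', u k c * u l c' * dd d (A c c') (ξ k) (ξ l) := by
  have h1 : ∀ c c', u k c * u l c' * dd d (A c c') (ξ k) (ξ l) =
      ∑ b : Fin d, ∑ a : Fin d, (ξ k ^ (a : ℕ) * u k c * (A c c').coeff ((a : ℕ) + (b : ℕ) + 1)) *
        (ξ l ^ (b : ℕ) * u l c') := by
    intro c c'
    rw [dd, Finset.sum_range, Finset.mul_sum, Finset.sum_comm]
    refine Finset.sum_congr rfl fun a _ => ?_
    rw [Finset.sum_range, Finset.mul_sum]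
    refine Finset.sum_congr rfl fun b _ => ?_
    ring
  simp_rw [h1]
  rw [Matrix.mul_apply, Fintype.sum_prod_type]
  simp_rw [Matrix.mul_apply, Fintype.sum_prod_type, Matrix.transpose_apply]
  have h2 : ∀ (b : Fin d) (c' : κ),
      (∑ a : Fin d, ∑ c : κ, vand d ξ u (a, c) k * bez d A (a, c) (b, c')) * vand d ξ u (b, c') l =
      ∑ c : κ, ∑ a : Fin d, (ξ k ^ (a : ℕ) * u k c * (A c c').coeff ((a : ℕ) + (b : ℕ) + 1)) *
        (ξ l ^ (b : ℕ) * u l c') := by
    intro b c'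
    rw [Finset.sum_comm, Finset.sum_mul]
    refine Finset.sum_congr rfl fun c _ => ?_
    rw [Finset.sum_mul]
    rfl
  simp_rw [h2]
  rw [Finset.sum_comm]
  simp_rw [Finset.sum_comm (s := (Finset.univ : Finset (Fin d))) (t := (Finset.univ : Finset κ))]
  rw [Finset.sum_comm]

end Pool.Agent.K3h53.Evn
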